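import Mathlib
import Pool.Agent.H262R3.Lk.Stubs
import Pool.Agent.Helper602.MK.J3

/-!
MH-BT: Brun-Titchmarsh for the von Mangoldt function
-/

set_option autoImplicit false

open Finset

namespace Pool.Agent.W505.MH

open Pool.Agent.H262R3.Lk

theorem card_primes {q b N : ℕ} (hq : 1 ≤ q) :
    ((((Icc 1 N).filter (fun n => n ≡ b [MOD q])).filter Nat.Prime).card) ≤
      ((Finset.range (N / q + 1)).filter (fun k => (b % q + k * q).Prime)).card := by
  apply card_le_card_of_injOn (fun p => p / q)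
  · intro p hp
    rw [mem_coe, mem_filter, mem_filter, mem_Icc] at hp
    obtain ⟨⟨⟨h1, h2⟩, h3⟩, h4⟩ := hp
    have h5 : b % q + p / q * q = p := by
      have : p % q = b % q := h3
      rw [← this, mul_comm]; exact Nat.mod_add_div p q
    rw [mem_coe, mem_filter, mem_range]
    refine ⟨?_, by rw [h5]; exact h4⟩
    exact Nat.lt_succ_of_le (Nat.div_le_div_right h2)
  · intro p hp p' hp' h
    rw [mem_coe, mem_filter, mem_filter] at hp hp'
    have h1 : p % q = b % q := hp.1.2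
    have h2 : p' % q = b % q := hp'.1.2
    simp only at h
    have e1 := Nat.mod_add_div p q
    have e2 := Nat.mod_add_div p' q
    rw [← e1, ← e2, h1, h2, h]

theorem bt : St_BT := by
  obtain ⟨C, hC, hBT⟩ := Pool.Agent.Helper602.MK.BTLib.brun_titchmarsh
  refine ⟨3 * C + 6, by linarith, ?_⟩
  intro q b N hN hq hqN _
  have hN' : (32 : ℝ) ≤ N := by exact_mod_cast hN
  have hN0 : (0 : ℝ) < N := by linarith
  have hq' : (1 : ℝ) ≤ q := by exact_mod_cast hq
  have hq0 : (0 : ℝ) < q := by linarith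
  have hqN' : (q : ℝ) ^ 8 ≤ N := by exact_mod_cast hqN
  have hφ : (0 : ℝ) < q.totient := by exact_mod_cast Nat.totient_pos.2 hq
  have hφq : (q.totient : ℝ) ≤ q := by exact_mod_cast Nat.totient_le q
  have hL : 0 < Real.log N := Real.log_pos (by linarith)
  have hlq : 8 * Real.log q ≤ Real.log N := by
    have h1 := Real.log_le_log (by positivity) hqN'
    rw [Real.log_pow] at h1
    exact_mod_cast h1
  have hqr : (q : ℝ) ≤ (N : ℝ) ^ (1 / 8 : ℝ) := by
    have h1 : ((q : ℝ) ^ 8) ^ (1 / 8 : ℝ) ≤ (N : ℝ) ^ (1 / 8 : ℝ) :=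
      Real.rpow_le_rpow (by positivity) hqN' (by norm_num)
    have h2 : ((q : ℝ) ^ 8) ^ (1 / 8 : ℝ) = q := by
      rw [← Real.rpow_natCast, ← Real.rpow_mul hq0.le]
      norm_num
    rwa [h2] at h1
  set S := (Icc 1 N).filter (fun n => n ≡ b [MOD q]) with hS
  rw [← Finset.sum_filter_add_sum_filter_not S Nat.Prime]
  have hqN1 : q ≤ N := by
    calc q = q ^ 1 := (pow_one q).symm
      _ ≤ q ^ 8 := Nat.pow_le_pow_right hq (by norm_num)
      _ ≤ N := hqN
  -- primes
  have h1 : ∑ n ∈ S.filter Nat.Prime, ArithmeticFunction.vonMangoldt n ≤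
      3 * C * (N / q.totient) := by
    have e1 : ∑ n ∈ S.filter Nat.Prime, ArithmeticFunction.vonMangoldt n ≤
        ((S.filter Nat.Prime).card : ℝ) * Real.log N := by
      rw [← nsmul_eq_mul]
      apply Finset.sum_le_card_nsmul
      intro n hn
      rw [mem_filter, hS, mem_filter, mem_Icc] at hn
      refine ArithmeticFunction.vonMangoldt_le_log.trans ?_
      apply Real.log_le_log
      · exact_mod_cast hn.1.1.1
      · exact_mod_cast hn.1.1.2
    have hM1 : 1 ≤ N / q := (Nat.one_le_div_iff (by omega)).2 hqN1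
    have e2 : ((S.filter Nat.Prime).card : ℝ) ≤
        C * ((q : ℝ) / (Nat.totient q : ℝ)) * ((N / q + 1 : ℕ) : ℝ) /
          Real.log ((N / q + 1 : ℕ) : ℝ) := by
      refine le_trans ?_ (hBT (b % q) q (N / q + 1) hq (by omega))
      exact_mod_cast card_primes hq
    have e3 : (N : ℝ) / q ≤ ((N / q + 1 : ℕ) : ℝ) := by
      push_cast
      exact (Nat.lt_floor_add_one ((N : ℝ) / q)).le.trans (by rw [Nat.floor_div_eq_div])
    have e4 : ((N / q + 1 : ℕ) : ℝ) ≤ 2 * (N / q) := by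
      have : ((N / q : ℕ) : ℝ) ≤ N / q := Nat.cast_div_le
      have h1 : (1 : ℝ) ≤ N / q := by
        rw [le_div_iff₀ hq0, one_mul]
        exact_mod_cast hqN1
      push_cast
      linarith
    have e5 : 7 / 8 * Real.log N ≤ Real.log ((N / q + 1 : ℕ) : ℝ) := by
      have h1 := Real.log_le_log (by positivity) e3
      rw [Real.log_div hN0.ne' hq0.ne'] at h1
      linarith
    calc ∑ n ∈ S.filter Nat.Prime, ArithmeticFunction.vonMangoldt n
        ≤ ((S.filter Nat.Prime).card : ℝ) * Real.log N := e1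
      _ ≤ (C * ((q : ℝ) / (Nat.totient q : ℝ)) * ((N / q + 1 : ℕ) : ℝ) /
          Real.log ((N / q + 1 : ℕ) : ℝ)) * Real.log N := by gcongr
      _ ≤ (C * ((q : ℝ) / (Nat.totient q : ℝ)) * (2 * (N / q)) / (7 / 8 * Real.log N)) *
          Real.log N := by gcongr
      _ = 16 / 7 * C * (N / q.totient) := by
        field_simp
        norm_num
      _ ≤ 3 * C * (N / q.totient) := by
        have : 0 ≤ C * (N / q.totient) := by positivity
        nlinarith
  have h2 : ∑ n ∈ S.filter (fun n => ¬ n.Prime), ArithmeticFunction.vonMangoldt n ≤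
      6 * (N / q.totient) := by
    have e1 : ∑ n ∈ S.filter (fun n => ¬ n.Prime), ArithmeticFunction.vonMangoldt n ≤
        ∑ n ∈ (Ioc 0 ⌊(N : ℝ)⌋₊).filter (fun n => ¬ n.Prime), ArithmeticFunction.vonMangoldt n := by
      apply Finset.sum_le_sum_of_subset_of_nonneg
      · intro n hn
        rw [mem_filter, hS, mem_filter, mem_Icc] at hn
        rw [mem_filter, mem_Ioc, Nat.floor_natCast]
        exact ⟨⟨hn.1.1.1, hn.1.1.2⟩, hn.2⟩
      · intro n _ _
        exact ArithmeticFunction.vonMangoldt_nonneg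
    rw [← Chebyshev.psi_sub_theta_eq_sum_not_prime] at e1
    have e2 := Chebyshev.psi_sub_theta_le (x := (N : ℝ)) (by linarith)
    have e3 : Real.log N ≤ (N : ℝ) ^ (3 / 8 : ℝ) / (3 / 8) :=
      Real.log_le_rpow_div hN0.le (by norm_num)
    have e4 : √(N : ℝ) = (N : ℝ) ^ (1 / 2 : ℝ) := Real.sqrt_eq_rpow _
    have e5 : (N : ℝ) ^ (1 / 2 : ℝ) * (N : ℝ) ^ (3 / 8 : ℝ) * (N : ℝ) ^ (1 / 8 : ℝ) = N := by
      rw [← Real.rpow_add hN0, ← Real.rpow_add hN0]
      norm_num
    have e6 : (N : ℝ) ^ (1 / 2 : ℝ) * (N : ℝ) ^ (3 / 8 : ℝ) ≤ N / q.totient := by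
      rw [le_div_iff₀ hφ]
      calc (N : ℝ) ^ (1 / 2 : ℝ) * (N : ℝ) ^ (3 / 8 : ℝ) * q.totient
          ≤ (N : ℝ) ^ (1 / 2 : ℝ) * (N : ℝ) ^ (3 / 8 : ℝ) * (N : ℝ) ^ (1 / 8 : ℝ) := by
            gcongr
            exact hφq.trans hqr
        _ = N := e5
    calc _ ≤ 2 * √(N : ℝ) * Real.log N := e1.trans e2
      _ ≤ 2 * (N : ℝ) ^ (1 / 2 : ℝ) * ((N : ℝ) ^ (3 / 8 : ℝ) / (3 / 8)) := by
        rw [e4]
        gcongr
      _ = 16 / 3 * ((N : ℝ) ^ (1 / 2 : ℝ) * (N : ℝ) ^ (3 / 8 : ℝ)) := by ring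
      _ ≤ 16 / 3 * (N / q.totient) := by gcongr
      _ ≤ 6 * (N / q.totient) := by
        have : 0 ≤ (N : ℝ) / q.totient := by positivity
        linarith
  have h3 : (3 * C + 6) * N / q.totient = 3 * C * (N / q.totient) + 6 * (N / q.totient) := by ring
  rw [h3]
  exact add_le_add h1 h2

end Pool.Agent.W505.MH
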