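import Mathlib
import Pool.Agent.H262R3.Lk.Stubs
import Pool.Agent.H318R2.Cr.Prod

/-!
MH-DIFF, MH-A0: common lemmas (partial summation).
-/

set_option autoImplicit false

open Finset Filter Topology

namespace Pool.Agent.W505.MH

open Pool.Agent.H262R3.Lk
open Pool.Agent.H318R2.Cr (Rgh V)

theorem not_rgh {z n : ℕ} (h1 : 1 < n) (h2 : n ≤ z) : ¬ Rgh z n := by
  intro h
  exact h (Nat.minFac n) (Nat.minFac_prime (by omega)) ((Nat.minFac_le (by omega)).trans h2)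
    (Nat.minFac_dvd n)

open Classical in
/-- indicator of the rough numbers in a class -/
noncomputable def ind (z q b n : ℕ) : ℝ := if Rgh z n ∧ n ≡ b [MOD q] then 1 else 0

/-- the weight -/
noncomputable def fn (j : ℕ) (σ : ℝ) (n : ℕ) : ℝ := (Real.log n) ^ j / (n : ℝ) ^ (1 + σ)

theorem rc_succ (z q b n : ℕ) : (rc z q b (n + 1) : ℝ) = rc z q b n + ind z q b (n + 1) := by
  unfold rc ind
  rw [← Finset.insert_Icc_right_eq_Icc_add_one (by omega : 1 ≤ n + 1), Finset.filter_insert]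
  split_ifs with h
  · rw [Finset.card_insert_of_notMem (by simp)]
    push_cast
    ring
  · simp

theorem abel (z : ℕ) (a f R : ℕ → ℝ) (hR : ∀ n, R (n + 1) = R n + a (n + 1)) (N : ℕ)
    (hN : z ≤ N) : ∑ n ∈ Ioc z N, a n * f n = R N * f N - R z * f z +
      ∑ n ∈ Ico z N, R n * (f n - f (n + 1)) := by
  induction N, hN using Nat.le_induction with
  | base => simp
  | succ N hN ih =>
    rw [← Finset.insert_Ioc_right_eq_Ioc_add_one hN, Finset.sum_insert (by simp), ih,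
      Finset.sum_Ico_succ_top hN, hR N]
    ring

theorem sum_aj (z q b j : ℕ) (σ : ℝ) (hz : 1 ≤ z) (N : ℕ) (hN : z ≤ N) :
    ∑ n ∈ range (N + 1), aj z q b j σ n = ∑ n ∈ Ioc z N, ind z q b n * fn j σ n := by
  have hsplit : range (N + 1) = range (z + 1) ∪ Ioc z N := by
    ext n
    simp only [mem_union, mem_range, mem_Ioc]
    omega
  have hdis : Disjoint (range (z + 1)) (Ioc z N) := by
    rw [Finset.disjoint_left]
    intro n h1 h2
    simp only [mem_range, mem_Ioc] at h1 h2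
    omega
  rw [hsplit, Finset.sum_union hdis]
  have h1 : ∑ n ∈ range (z + 1), aj z q b j σ n = 0 := by
    apply Finset.sum_eq_zero
    intro n hn
    rw [mem_range] at hn
    unfold aj
    rw [if_neg]
    rintro ⟨h1, _, h3⟩
    exact not_rgh h3 (by omega) h1
  rw [h1, zero_add]
  apply Finset.sum_congr rfl
  intro n hn
  rw [mem_Ioc] at hn
  unfold aj ind fn
  by_cases h : Rgh z n ∧ n ≡ b [MOD q]
  · rw [if_pos ⟨h.1, h.2, by omega⟩, if_pos h, one_mul]
  · rw [if_neg (fun h' => h ⟨h'.1, h'.2.1⟩), if_neg h, zero_mul]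

/-- partial sums to series -/
theorem tsum_le_of {a : ℕ → ℝ} (ha : Summable a) (K : ℝ) (n₀ : ℕ)
    (h : ∀ N, n₀ ≤ N → ∑ n ∈ range (N + 1), a n ≤ K) : ∑' n, a n ≤ K := by
  have h1 := ha.hasSum.tendsto_sum_nat
  have h2 := h1.comp (tendsto_add_atTop_nat 1)
  refine le_of_tendsto h2 ?_
  filter_upwards [eventually_ge_atTop n₀] with N hN
  exact h N hN

theorem tsum_diff_le {a b : ℕ → ℝ} (ha : Summable a) (hb : Summable b) (K : ℝ) (n₀ : ℕ)
    (h : ∀ N, n₀ ≤ N → |∑ n ∈ range (N + 1), a n - ∑ n ∈ range (N + 1), b n| ≤ K) :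
    |∑' n, a n - ∑' n, b n| ≤ K := by
  have h1 := ha.hasSum.tendsto_sum_nat
  have h2 := h1.comp (tendsto_add_atTop_nat 1)
  have h1' := hb.hasSum.tendsto_sum_nat
  have h2' := h1'.comp (tendsto_add_atTop_nat 1)
  refine le_of_tendsto (h2.sub h2').abs ?_
  filter_upwards [eventually_ge_atTop n₀] with N hN
  exact h N hN

/-- the difference of consecutive powers -/
theorem rpow_diff {σ : ℝ} (hσ : 0 < σ) {n : ℕ} (hn : 1 ≤ n) :
    0 ≤ 1 / (n : ℝ) ^ (1 + σ) - 1 / ((n : ℝ) + 1) ^ (1 + σ) ∧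
    (n : ℝ) * (1 / (n : ℝ) ^ (1 + σ) - 1 / ((n : ℝ) + 1) ^ (1 + σ)) ≤
      (1 + σ) * (1 / (n : ℝ) ^ (1 + σ)) := by
  have hn0 : (0 : ℝ) < n := by exact_mod_cast hn
  have hn1 : (0 : ℝ) < (n : ℝ) + 1 := by linarith
  have p1 : 0 < (n : ℝ) ^ (1 + σ) := Real.rpow_pos_of_pos hn0 _
  have p2 : 0 < ((n : ℝ) + 1) ^ (1 + σ) := Real.rpow_pos_of_pos hn1 _
  constructor
  · rw [sub_nonneg]
    apply one_div_le_one_div_of_le p1
    exact Real.rpow_le_rpow hn0.le (by linarith) (by linarith)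
  · have hB : 1 - (1 + σ) / ((n : ℝ) + 1) ≤ ((n : ℝ) / (n + 1)) ^ (1 + σ) := by
      have h1 := one_add_mul_self_le_rpow_one_add (s := -1 / ((n : ℝ) + 1)) (by
        rw [neg_div, neg_le_neg_iff]
        rw [div_le_one hn1]; linarith) (p := 1 + σ) (by linarith)
      have e1 : 1 + -1 / ((n : ℝ) + 1) = n / (n + 1) := by field_simp; ring
      rw [e1] at h1
      have e2 : 1 + (1 + σ) * (-1 / ((n : ℝ) + 1)) = 1 - (1 + σ) / (n + 1) := by ring
      rwa [e2] at h1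
    have e3 : 1 / ((n : ℝ) + 1) ^ (1 + σ) = (1 / (n : ℝ) ^ (1 + σ)) * ((n : ℝ) / (n + 1)) ^ (1 + σ) := by
      rw [Real.div_rpow hn0.le hn1.le]
      field_simp
    rw [e3]
    have e4 : (n : ℝ) * (1 / (n : ℝ) ^ (1 + σ) - (1 / (n : ℝ) ^ (1 + σ)) *
        ((n : ℝ) / (n + 1)) ^ (1 + σ)) =
        (1 / (n : ℝ) ^ (1 + σ)) * (n * (1 - ((n : ℝ) / (n + 1)) ^ (1 + σ))) := by ring
    rw [e4, mul_comm (1 + σ)]
    apply mul_le_mul_of_nonneg_left _ (by positivity)
    calc (n : ℝ) * (1 - ((n : ℝ) / (n + 1)) ^ (1 + σ)) ≤ n * ((1 + σ) / (n + 1)) := by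
          apply mul_le_mul_of_nonneg_left _ hn0.le
          linarith
      _ = (1 + σ) * (n / (n + 1)) := by ring
      _ ≤ (1 + σ) * 1 := by
          apply mul_le_mul_of_nonneg_left _ (by linarith)
          rw [div_le_one hn1]
          linarith
      _ = 1 + σ := mul_one _

theorem log_ge_one {n : ℕ} (hn : 32 ≤ n) : 1 ≤ Real.log n := by
  have h1 : Real.exp 1 ≤ n := by
    have h2 : (32 : ℝ) ≤ n := by exact_mod_cast hn
    have := Real.exp_one_lt_d9
    linarith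
  have := Real.log_le_log (Real.exp_pos 1) h1
  rwa [Real.log_exp] at this

theorem log_succ_diff {n : ℕ} (hn : 1 ≤ n) :
    1 / ((n : ℝ) + 1) ≤ Real.log ((n : ℝ) + 1) - Real.log n ∧
    Real.log ((n : ℝ) + 1) - Real.log n ≤ 1 / n := by
  have hn0 : (0 : ℝ) < n := by exact_mod_cast hn
  have hn1 : (0 : ℝ) < (n : ℝ) + 1 := by linarith
  constructor
  · have h5 := Real.log_le_sub_one_of_pos (show 0 < (n : ℝ) / (n + 1) by positivity)
    rw [Real.log_div hn0.ne' hn1.ne'] at h5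
    have h6 : (n : ℝ) / (n + 1) - 1 = -(1 / (n + 1)) := by field_simp; ring
    linarith
  · have h5 := Real.log_le_sub_one_of_pos (show 0 < ((n : ℝ) + 1) / n by positivity)
    rw [Real.log_div hn1.ne' hn0.ne'] at h5
    have h6 : ((n : ℝ) + 1) / n - 1 = 1 / n := by field_simp; ring
    linarith

/-- the difference of consecutive weights -/
theorem fn_diff {σ : ℝ} (hσ : 0 < σ) (hσ1 : σ ≤ 1) {j : ℕ} (hj : j ≤ 3) {n : ℕ} (hn : 32 ≤ n) :
    |fn j σ n - fn j σ (n + 1)| ≤ 9 * ((Real.log n) ^ j / (n : ℝ) ^ 2) := by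
  have hn0 : (0 : ℝ) < n := by exact_mod_cast (by omega : 0 < n)
  have hn1 : (0 : ℝ) < (n : ℝ) + 1 := by linarith
  have hn1' : (1 : ℝ) ≤ n := by exact_mod_cast (by omega : 1 ≤ n)
  obtain ⟨d1, d2⟩ := rpow_diff hσ (by omega : 1 ≤ n)
  obtain ⟨l1, l2⟩ := log_succ_diff (by omega : 1 ≤ n)
  have hL := log_ge_one hn
  set L := Real.log n with hLd
  set d := Real.log ((n : ℝ) + 1) - L with hd
  have hd0 : 0 ≤ d := le_trans (by positivity) l1
  have hd1 : d ≤ 1 := l2.trans (by rw [div_le_one hn0]; exact hn1')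
  have hL' : Real.log ((n : ℝ) + 1) = L + d := by rw [hd]; ring
  have hpow : 0 ≤ (L + d) ^ j - L ^ j ∧ (L + d) ^ j - L ^ j ≤ 7 * (L ^ j * d) := by
    constructor
    · rw [sub_nonneg]
      exact pow_le_pow_left₀ (by linarith) (by linarith) _
    · interval_cases j
      · simp
        positivity
      · nlinarith
      · have h1 : 0 ≤ L * d := by positivity
        nlinarith [mul_nonneg h1 (show 0 ≤ L - 1 by linarith), mul_nonneg hd0 hd0,
          mul_nonneg hd0 (show 0 ≤ 1 - d by linarith), mul_nonneg hd0 (mul_nonneg (show 0 ≤ L by linarith) (show 0 ≤ L - 1 by linarith)), mul_nonneg hd0 (show 0 ≤ L - 1 by linarith)]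
      · have e : (L + d) ^ 3 - L ^ 3 = d * (3 * L ^ 2 + 3 * L * d + d ^ 2) := by ring
        rw [e]
        have h1 : 3 * L ^ 2 ≤ 3 * L ^ 3 := by nlinarith [mul_nonneg (sq_nonneg L) (show 0 ≤ L - 1 by linarith)]
        have h2 : 3 * L * d ≤ 3 * L ^ 3 := by
          have : d ≤ L ^ 2 := by nlinarith
          nlinarith
        have h3 : d ^ 2 ≤ L ^ 3 := by
          have : L ^ 3 ≥ 1 := one_le_pow₀ hL
          nlinarith
        nlinarith
  set u := 1 / (n : ℝ) ^ (1 + σ) with hu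
  set v := 1 / ((n : ℝ) + 1) ^ (1 + σ) with hv
  have hu1 : u ≤ 1 / n := by
    rw [hu]
    apply one_div_le_one_div_of_le hn0
    calc (n : ℝ) = (n : ℝ) ^ (1 : ℝ) := (Real.rpow_one _).symm
      _ ≤ (n : ℝ) ^ (1 + σ) := Real.rpow_le_rpow_of_exponent_le hn1' (by linarith)
  have hv0 : 0 ≤ v := by positivity
  have hvu : v ≤ u := by linarith
  have hLj : 0 ≤ L ^ j := by positivity
  have e1 : fn j σ n - fn j σ (n + 1) = L ^ j * (u - v) - ((L + d) ^ j - L ^ j) * v := by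
    unfold fn
    push_cast
    rw [hL', hu, hv, ← hLd]
    ring
  rw [e1]
  have h1 : |L ^ j * (u - v)| ≤ 2 * (L ^ j / (n : ℝ) ^ 2) := by
    rw [abs_of_nonneg (mul_nonneg hLj d1)]
    have h2 : u - v ≤ 2 * (1 / (n : ℝ) ^ 2) := by
      have h3 : u - v ≤ (1 + σ) * u / n := by
        rw [le_div_iff₀ hn0]
        linarith
      calc u - v ≤ (1 + σ) * u / n := h3
        _ ≤ 2 * (1 / n) / n := by gcongr; linarith
        _ = 2 * (1 / (n : ℝ) ^ 2) := by field_simp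
    calc L ^ j * (u - v) ≤ L ^ j * (2 * (1 / (n : ℝ) ^ 2)) := by gcongr
      _ = 2 * (L ^ j / (n : ℝ) ^ 2) := by ring
  have h2 : |((L + d) ^ j - L ^ j) * v| ≤ 7 * (L ^ j / (n : ℝ) ^ 2) := by
    rw [abs_of_nonneg (mul_nonneg hpow.1 hv0)]
    calc ((L + d) ^ j - L ^ j) * v ≤ (7 * (L ^ j * (1 / n))) * (1 / n) := by
          apply mul_le_mul _ (hvu.trans hu1) hv0 (by positivity)
          refine hpow.2.trans ?_
          gcongr
      _ = 7 * (L ^ j / (n : ℝ) ^ 2) := by field_simp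
  calc |L ^ j * (u - v) - ((L + d) ^ j - L ^ j) * v| ≤
        |L ^ j * (u - v)| + |((L + d) ^ j - L ^ j) * v| := abs_sub _ _
    _ ≤ 2 * (L ^ j / (n : ℝ) ^ 2) + 7 * (L ^ j / (n : ℝ) ^ 2) := add_le_add h1 h2
    _ = 9 * (L ^ j / (n : ℝ) ^ 2) := by ring

theorem sum_inv_log {z : ℕ} (hz : 32 ≤ z) (N : ℕ) (hN : z ≤ N) :
    ∑ n ∈ Ico z N, 1 / ((n : ℝ) * (Real.log n) ^ 2) ≤ 4 / Real.log z := by
  have key : ∑ n ∈ Ico z N, 1 / ((n : ℝ) * (Real.log n) ^ 2) ≤
      4 * (1 / Real.log z - 1 / Real.log N) := by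
    induction N, hN using Nat.le_induction with
    | base => simp
    | succ N hN ih =>
      rw [Finset.sum_Ico_succ_top hN]
      have hN0 : (0 : ℝ) < N := by exact_mod_cast (by omega : 0 < N)
      have hN1 : (1 : ℝ) ≤ N := by exact_mod_cast (by omega : 1 ≤ N)
      obtain ⟨l1, l2⟩ := log_succ_diff (by omega : 1 ≤ N)
      have hL := log_ge_one (by omega : 32 ≤ N)
      set L := Real.log N with hLd
      have h1 : 1 / ((N : ℝ) * L ^ 2) ≤ 4 * (1 / L - 1 / Real.log ((N : ℝ) + 1)) := by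
        set L' := Real.log ((N : ℝ) + 1) with hL'
        have hd1 : L' - L ≤ 1 := l2.trans (by rw [div_le_one hN0]; exact hN1)
        have hL'0 : 0 < L' := by
          have : 0 ≤ 1 / ((N : ℝ) + 1) := by positivity
          linarith
        have hLL : 0 ≤ L' - L := le_trans (by positivity) l1
        have h2 : L' ≤ 2 * L := by linarith
        have h3 : 1 / (2 * (N : ℝ)) ≤ L' - L :=
          le_trans (one_div_le_one_div_of_le (by positivity) (by linarith)) l1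
        rw [div_sub_div _ _ (by linarith) hL'0.ne', one_mul, mul_one]
        calc 1 / ((N : ℝ) * L ^ 2) = 4 * ((1 / (2 * (N : ℝ))) / (L * (2 * L))) := by
              field_simp
              norm_num
          _ ≤ 4 * ((L' - L) / (L * L')) := by gcongr
      push_cast
      linarith
  refine key.trans ?_
  have hNL := log_ge_one (by omega : 32 ≤ N)
  have : 0 ≤ 1 / Real.log N := by positivity
  calc 4 * (1 / Real.log z - 1 / Real.log N) ≤ 4 * (1 / Real.log z) := by linarith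
    _ = 4 / Real.log z := by ring

theorem rpow_tele {σ : ℝ} (hσ : 0 < σ) {n : ℕ} (hn : 2 ≤ n) :
    1 / (n : ℝ) ^ (1 + σ) ≤ 1 / σ * (((n : ℝ) - 1) ^ (-σ) - (n : ℝ) ^ (-σ)) := by
  have hn2 : (2 : ℝ) ≤ n := by exact_mod_cast hn
  have hn0 : (0 : ℝ) < n := by linarith
  have hn1 : (0 : ℝ) < (n : ℝ) - 1 := by linarith
  have h1 : ((n : ℝ) - 1) ^ (-σ) = (n : ℝ) ^ (-σ) * (((n : ℝ) - 1) / n) ^ (-σ) := by
    rw [Real.div_rpow hn1.le hn0.le]
    have := (Real.rpow_pos_of_pos hn0 (-σ)).ne'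
    field_simp
  have h2 : 1 + σ / n ≤ (((n : ℝ) - 1) / n) ^ (-σ) := by
    rw [Real.rpow_def_of_pos (by positivity)]
    have h3 := Real.add_one_le_exp (Real.log (((n : ℝ) - 1) / n) * -σ)
    have h4 := Real.log_le_sub_one_of_pos (show 0 < ((n : ℝ) - 1) / n by positivity)
    have h5 : ((n : ℝ) - 1) / n - 1 = -(1 / n) := by field_simp; ring
    rw [h5] at h4
    have h6 : σ / n ≤ Real.log (((n : ℝ) - 1) / n) * -σ := by
      have : σ / n = σ * (1 / n) := by ring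
      rw [this]
      nlinarith
    linarith
  have h3 : 1 / (n : ℝ) ^ (1 + σ) = (n : ℝ) ^ (-σ) * (1 / n) := by
    rw [Real.rpow_add hn0, Real.rpow_one, Real.rpow_neg hn0.le]
    field_simp
  rw [h3, h1]
  have p : 0 < (n : ℝ) ^ (-σ) := Real.rpow_pos_of_pos hn0 _
  have h4 : (n : ℝ) ^ (-σ) * (((n : ℝ) - 1) / n) ^ (-σ) - (n : ℝ) ^ (-σ) =
      (n : ℝ) ^ (-σ) * ((((n : ℝ) - 1) / n) ^ (-σ) - 1) := by ring
  rw [h4]
  calc (n : ℝ) ^ (-σ) * (1 / n) = 1 / σ * ((n : ℝ) ^ (-σ) * (σ / n)) := by field_simp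
    _ ≤ 1 / σ * ((n : ℝ) ^ (-σ) * ((((n : ℝ) - 1) / n) ^ (-σ) - 1)) := by
        gcongr
        linarith

theorem sum_rpow {σ : ℝ} (hσ : 0 < σ) {z : ℕ} (hz : 32 ≤ z) (N : ℕ) (hN : z ≤ N) :
    ∑ n ∈ Ico z N, 1 / (n : ℝ) ^ (1 + σ) ≤ 1 / σ := by
  have key : ∑ n ∈ Ico z N, 1 / (n : ℝ) ^ (1 + σ) ≤
      1 / σ * (((z : ℝ) - 1) ^ (-σ) - ((N : ℝ) - 1) ^ (-σ)) := by
    induction N, hN using Nat.le_induction with
    | base => simp
    | succ N hN ih =>
      rw [Finset.sum_Ico_succ_top hN]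
      have h1 := rpow_tele hσ (by omega : 2 ≤ N)
      push_cast
      have e : (N : ℝ) + 1 - 1 = N := by ring
      rw [e]
      calc _ ≤ 1 / σ * (((z : ℝ) - 1) ^ (-σ) - ((N : ℝ) - 1) ^ (-σ)) +
            1 / σ * (((N : ℝ) - 1) ^ (-σ) - (N : ℝ) ^ (-σ)) := add_le_add ih h1
        _ = _ := by ring
  refine key.trans ?_
  have hz1 : (1 : ℝ) ≤ (z : ℝ) - 1 := by
    have : (32 : ℝ) ≤ z := by exact_mod_cast hz
    linarith
  have hN1 : (0 : ℝ) ≤ (N : ℝ) - 1 := by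
    have : (32 : ℝ) ≤ N := by exact_mod_cast hz.trans hN
    linarith
  have h1 : ((z : ℝ) - 1) ^ (-σ) ≤ 1 := Real.rpow_le_one_of_one_le_of_nonpos hz1 (by linarith)
  have h2 : 0 ≤ ((N : ℝ) - 1) ^ (-σ) := Real.rpow_nonneg hN1 _
  calc 1 / σ * (((z : ℝ) - 1) ^ (-σ) - ((N : ℝ) - 1) ^ (-σ)) ≤ 1 / σ * 1 := by
        gcongr
        linarith
    _ = 1 / σ := mul_one _

end Pool.Agent.W505.MH
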