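import Mathlib
import Pool.Agent.W505.MH.Base

/-!
MH-DIFF: the classes of the rough numbers are equidistributed in the series.
MH-A0: the size of the rough series.
-/

set_option autoImplicit false

open Finset Filter Topology

namespace Pool.Agent.W505.MH

open Pool.Agent.H262R3.Lk
open Pool.Agent.H318R2.Cr (Rgh V V_pos V_le_one cz_bounds)

theorem diff (hFL : St_FL) (hSUM : St_SUM) : St_DIFF := by
  obtain ⟨C₀, hC₀, hFL⟩ := hFL
  obtain ⟨c₁, c₂, hc₁, hc₁₂, hcz⟩ := cz_bounds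
  have hc₂ : 0 < c₂ := lt_of_lt_of_le hc₁ hc₁₂
  refine ⟨72 * C₀ * c₂ + 4 * C₀, by positivity, ?_⟩
  intro z q b b' j σ hz hq hqz hb hb' hj hσ hσ1
  have hz0 : (0 : ℝ) < z := by exact_mod_cast (by omega : 0 < z)
  have hφ : (0 : ℝ) < q.totient := by exact_mod_cast Nat.totient_pos.2 hq
  have hLz := log_ge_one hz
  set Lz := Real.log z with hLzd
  have hV0 : 0 < V z := V_pos z
  have hV1 : V z ≤ 1 := V_le_one z
  have hVL : V z * Lz ≤ c₂ := (hcz z (by omega)).2
  set R : ℕ → ℝ := fun n => (rc z q b n : ℝ) - rc z q b' n with hR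
  have hRb : ∀ n, z ≤ n → |R n| ≤ 2 * C₀ * (n * V z / q.totient) * (Lz / Real.log n) ^ 5 := by
    intro n hn
    have h1 := hFL z q b n hz hq hqz hb hn
    have h2 := hFL z q b' n hz hq hqz hb' hn
    have e : R n = ((rc z q b n : ℝ) - n * V z / q.totient) -
        ((rc z q b' n : ℝ) - n * V z / q.totient) := by simp only [hR]; ring
    rw [e]
    refine (abs_sub _ _).trans ?_
    calc _ ≤ _ := add_le_add h1 h2
      _ = _ := by ring
  have hmono : ∀ n : ℕ, z ≤ n → Lz ≤ Real.log n := by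
    intro n hn
    exact Real.log_le_log hz0 (by exact_mod_cast hn)
  -- the boundary terms
  have hbd : ∀ n : ℕ, z ≤ n → |R n * fn j σ n| ≤ 2 * C₀ * (Lz ^ j / q.totient) := by
    intro n hn
    have hn0 : (0 : ℝ) < n := by exact_mod_cast (by omega : 0 < n)
    have hn1 : (1 : ℝ) ≤ n := by exact_mod_cast (by omega : 1 ≤ n)
    have hLn := hmono n hn
    set Ln := Real.log n with hLnd
    have hLn0 : 0 < Ln := by linarith
    have hf : fn j σ n ≤ Ln ^ j / n := by
      unfold fn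
      rw [← hLnd]
      gcongr
      calc (n : ℝ) = (n : ℝ) ^ (1 : ℝ) := (Real.rpow_one _).symm
        _ ≤ (n : ℝ) ^ (1 + σ) := Real.rpow_le_rpow_of_exponent_le hn1 (by linarith)
    have hf0 : 0 ≤ fn j σ n := by
      unfold fn
      positivity
    rw [abs_mul, abs_of_nonneg hf0]
    have hx : Lz / Ln ≤ 1 := by rw [div_le_one hLn0]; exact hLn
    have hx0 : 0 ≤ Lz / Ln := by positivity
    calc |R n| * fn j σ n ≤ (2 * C₀ * (n * V z / q.totient) * (Lz / Ln) ^ 5) * (Ln ^ j / n) := by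
          apply mul_le_mul (hRb n hn) hf hf0 (by positivity)
      _ ≤ (2 * C₀ * (n * 1 / q.totient) * (Lz / Ln) ^ j) * (Ln ^ j / n) := by
          have : (Lz / Ln) ^ 5 ≤ (Lz / Ln) ^ j := pow_le_pow_of_le_one hx0 hx (by omega)
          gcongr
      _ = 2 * C₀ * (Lz ^ j / q.totient) := by
          rw [div_pow]
          field_simp
  refine tsum_diff_le (hSUM z q b j σ hσ).1 (hSUM z q b' j σ hσ).1 _ z ?_
  intro N hN
  rw [sum_aj z q b j σ (by omega) N hN, sum_aj z q b' j σ (by omega) N hN, ← Finset.sum_sub_distrib]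
  have e1 : ∑ n ∈ Ioc z N, (ind z q b n * fn j σ n - ind z q b' n * fn j σ n) =
      ∑ n ∈ Ioc z N, (ind z q b n - ind z q b' n) * fn j σ n :=
    Finset.sum_congr rfl fun n _ => by ring
  rw [e1, abel z (fun n => ind z q b n - ind z q b' n) (fn j σ) R (by
    intro n
    simp only [hR]
    rw [rc_succ, rc_succ]
    ring) N hN]
  have hs : |∑ n ∈ Ico z N, R n * (fn j σ n - fn j σ (n + 1))| ≤
      72 * C₀ * c₂ * (Lz ^ j / q.totient) := by
    refine (Finset.abs_sum_le_sum_abs _ _).trans ?_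
    have h1 : ∀ n ∈ Ico z N, |R n * (fn j σ n - fn j σ (n + 1))| ≤
        (18 * C₀ * (V z / q.totient) * Lz ^ (j + 2)) * (1 / ((n : ℝ) * (Real.log n) ^ 2)) := by
      intro n hn
      rw [mem_Ico] at hn
      have hn0 : (0 : ℝ) < n := by exact_mod_cast (by omega : 0 < n)
      have hLn := hmono n hn.1
      have hfd := fn_diff hσ hσ1 hj (show 32 ≤ n by omega)
      have hRn := hRb n hn.1
      set Ln := Real.log n with hLnd
      have hLn0 : 0 < Ln := by linarith
      have hx : Lz / Ln ≤ 1 := by rw [div_le_one hLn0]; exact hLn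
      have hx0 : 0 ≤ Lz / Ln := by positivity
      rw [abs_mul]
      calc |R n| * |fn j σ n - fn j σ (n + 1)| ≤
            (2 * C₀ * (n * V z / q.totient) * (Lz / Ln) ^ 5) * (9 * (Ln ^ j / (n : ℝ) ^ 2)) :=
            mul_le_mul hRn hfd (abs_nonneg _) (by positivity)
        _ ≤ (2 * C₀ * (n * V z / q.totient) * (Lz / Ln) ^ (j + 2)) * (9 * (Ln ^ j / (n : ℝ) ^ 2)) := by
            have : (Lz / Ln) ^ 5 ≤ (Lz / Ln) ^ (j + 2) := pow_le_pow_of_le_one hx0 hx (by omega)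
            gcongr
        _ = (18 * C₀ * (V z / q.totient) * Lz ^ (j + 2)) * (1 / ((n : ℝ) * Ln ^ 2)) := by
            rw [div_pow, pow_add Ln]
            field_simp
            norm_num
    refine (Finset.sum_le_sum h1).trans ?_
    rw [← Finset.mul_sum]
    calc (18 * C₀ * (V z / q.totient) * Lz ^ (j + 2)) *
          ∑ n ∈ Ico z N, 1 / ((n : ℝ) * (Real.log n) ^ 2) ≤
          (18 * C₀ * (V z / q.totient) * Lz ^ (j + 2)) * (4 / Lz) := by
          apply mul_le_mul_of_nonneg_left (sum_inv_log hz N hN) (by positivity)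
      _ = 72 * C₀ * (V z * Lz) * (Lz ^ j / q.totient) := by
          rw [pow_add]
          field_simp
          norm_num
      _ ≤ 72 * C₀ * c₂ * (Lz ^ j / q.totient) := by gcongr
  calc |R N * fn j σ N - R z * fn j σ z + ∑ n ∈ Ico z N, R n * (fn j σ n - fn j σ (n + 1))| ≤
        |R N * fn j σ N - R z * fn j σ z| + |∑ n ∈ Ico z N, R n * (fn j σ n - fn j σ (n + 1))| :=
        abs_add_le _ _
    _ ≤ (|R N * fn j σ N| + |R z * fn j σ z|) + 72 * C₀ * c₂ * (Lz ^ j / q.totient) :=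
        add_le_add (abs_sub _ _) hs
    _ ≤ (2 * C₀ * (Lz ^ j / q.totient) + 2 * C₀ * (Lz ^ j / q.totient)) +
          72 * C₀ * c₂ * (Lz ^ j / q.totient) := by
        gcongr
        · exact hbd N hN
        · exact hbd z le_rfl
    _ = (72 * C₀ * c₂ + 4 * C₀) * Lz ^ j / q.totient := by ring

theorem a0 (hFL : St_FL) (hSUM : St_SUM) : St_A0 := by
  obtain ⟨C₀, hC₀, hFL⟩ := hFL
  obtain ⟨c₁, c₂, hc₁, hc₁₂, hcz⟩ := cz_bounds
  have hc₂ : 0 < c₂ := lt_of_lt_of_le hc₁ hc₁₂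
  refine ⟨3 * (1 + C₀) * c₂, by positivity, ?_⟩
  intro z q b σ hz hq hqz hb hσ hσL
  have hz0 : (0 : ℝ) < z := by exact_mod_cast (by omega : 0 < z)
  have hφ : (0 : ℝ) < q.totient := by exact_mod_cast Nat.totient_pos.2 hq
  have hLz := log_ge_one hz
  set Lz := Real.log z with hLzd
  have hLz0 : 0 < Lz := by linarith
  have hσ1 : σ ≤ 1 := by nlinarith
  have hV0 : 0 < V z := V_pos z
  have hVL : V z * Lz ≤ c₂ := (hcz z (by omega)).2
  have hmono : ∀ n : ℕ, z ≤ n → Lz ≤ Real.log n := by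
    intro n hn
    exact Real.log_le_log hz0 (by exact_mod_cast hn)
  have hRb : ∀ n, z ≤ n → (rc z q b n : ℝ) ≤ (1 + C₀) * (V z / q.totient) * n := by
    intro n hn
    have h1 := (abs_le.1 (hFL z q b n hz hq hqz hb hn)).2
    have hLn := hmono n hn
    have hLn0 : 0 < Real.log n := by linarith
    have hx : Lz / Real.log n ≤ 1 := by rw [div_le_one hLn0]; exact hLn
    have hx0 : 0 ≤ Lz / Real.log n := by positivity
    have h2 : (Lz / Real.log n) ^ 5 ≤ 1 := pow_le_one₀ hx0 hx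
    have h3 : C₀ * (n * V z / q.totient) * (Lz / Real.log n) ^ 5 ≤
        C₀ * (n * V z / q.totient) * 1 := by gcongr
    have e : (1 + C₀) * (V z / q.totient) * n = n * V z / q.totient +
        C₀ * (n * V z / q.totient) := by ring
    rw [e]
    linarith
  refine tsum_le_of (hSUM z q b 0 σ hσ).1 _ z ?_
  intro N hN
  rw [sum_aj z q b 0 σ (by omega) N hN, abel z (ind z q b) (fn 0 σ) (fun n => (rc z q b n : ℝ))
    (fun n => rc_succ z q b n) N hN]
  have hfn : ∀ n : ℕ, fn 0 σ n = 1 / (n : ℝ) ^ (1 + σ) := by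
    intro n
    unfold fn
    simp
  have hK0 : 0 ≤ (1 + C₀) * (V z / q.totient) := by positivity
  set K := (1 + C₀) * (V z / q.totient) with hK
  have h1 : (rc z q b N : ℝ) * fn 0 σ N ≤ K := by
    have hN0 : (0 : ℝ) < N := by exact_mod_cast (by omega : 0 < N)
    have hN1 : (1 : ℝ) ≤ N := by exact_mod_cast (by omega : 1 ≤ N)
    have hf : fn 0 σ N ≤ 1 / N := by
      rw [hfn]
      gcongr
      calc (N : ℝ) = (N : ℝ) ^ (1 : ℝ) := (Real.rpow_one _).symm
        _ ≤ (N : ℝ) ^ (1 + σ) := Real.rpow_le_rpow_of_exponent_le hN1 (by linarith)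
    have hf0 : 0 ≤ fn 0 σ N := by
      unfold fn
      positivity
    calc (rc z q b N : ℝ) * fn 0 σ N ≤ (K * N) * (1 / N) :=
          mul_le_mul (hRb N hN) hf hf0 (by positivity)
      _ = K := by field_simp
  have h2 : 0 ≤ (rc z q b z : ℝ) * fn 0 σ z := by
    unfold fn
    positivity
  have h3 : ∑ n ∈ Ico z N, (rc z q b n : ℝ) * (fn 0 σ n - fn 0 σ (n + 1)) ≤ K * (2 / σ) := by
    have h4 : ∀ n ∈ Ico z N, (rc z q b n : ℝ) * (fn 0 σ n - fn 0 σ (n + 1)) ≤
        (2 * K) * (1 / (n : ℝ) ^ (1 + σ)) := by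
      intro n hn
      rw [mem_Ico] at hn
      obtain ⟨d1, d2⟩ := rpow_diff hσ (show 1 ≤ n by omega)
      rw [hfn, hfn]
      push_cast
      have hp : 0 ≤ 1 / (n : ℝ) ^ (1 + σ) := by positivity
      calc (rc z q b n : ℝ) * (1 / (n : ℝ) ^ (1 + σ) - 1 / ((n : ℝ) + 1) ^ (1 + σ)) ≤
            (K * n) * (1 / (n : ℝ) ^ (1 + σ) - 1 / ((n : ℝ) + 1) ^ (1 + σ)) :=
            mul_le_mul_of_nonneg_right (hRb n hn.1) d1
        _ = K * (n * (1 / (n : ℝ) ^ (1 + σ) - 1 / ((n : ℝ) + 1) ^ (1 + σ))) := by ring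
        _ ≤ K * ((1 + σ) * (1 / (n : ℝ) ^ (1 + σ))) := mul_le_mul_of_nonneg_left d2 hK0
        _ ≤ K * (2 * (1 / (n : ℝ) ^ (1 + σ))) := by
            gcongr
            linarith
        _ = (2 * K) * (1 / (n : ℝ) ^ (1 + σ)) := by ring
    refine (Finset.sum_le_sum h4).trans ?_
    rw [← Finset.mul_sum]
    calc (2 * K) * ∑ n ∈ Ico z N, 1 / (n : ℝ) ^ (1 + σ) ≤ (2 * K) * (1 / σ) :=
          mul_le_mul_of_nonneg_left (sum_rpow hσ hz N hN) (by positivity)
      _ = K * (2 / σ) := by ring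
  have h4 : (1 : ℝ) ≤ 1 / σ := by
    rw [le_div_iff₀ hσ]
    linarith
  calc (rc z q b N : ℝ) * fn 0 σ N - (rc z q b z : ℝ) * fn 0 σ z +
        ∑ n ∈ Ico z N, (rc z q b n : ℝ) * (fn 0 σ n - fn 0 σ (n + 1)) ≤ K + K * (2 / σ) := by
        linarith
    _ ≤ K * (1 / σ) + K * (2 / σ) := by
        have : K * 1 ≤ K * (1 / σ) := mul_le_mul_of_nonneg_left h4 hK0
        linarith
    _ = 3 * (1 + C₀) * (V z * Lz) / (q.totient * (σ * Lz)) := by
        rw [hK]
        field_simp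
        ring
    _ ≤ 3 * (1 + C₀) * c₂ / (q.totient * (σ * Lz)) := by gcongr

end Pool.Agent.W505.MH
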